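import Pool.Agent.R692.ERW9

/-!
# MP_758450_pr: a right transient excited random walk with `μ = θ = 1`

We construct a uniformly elliptic, identically piled cookie environment with `μ = θ = 1` for which
the excited random walk is transient to the right.

Definitions used (all in `Pool/Agent/R692/ERW1.lean` and `ERW9.lean`):
* `bern q`, `coins p`: the Bernoulli law on `Bool` and the law of independent trials where the
  `i`-th trial (`i = 0, 1, ...`) succeeds with probability `p i`;
* `fails b n`: number of failures among the first `n` trials; `U x b`: number of successes until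
  the `x`-th failure;
* `visits w n = #{k < n : w k = w n}`;
* `IsERW p P X`: `X` is an excited random walk started at `0` in the identically piled environment
  whose `(i+1)`-st cookie is `p i`, given through its one-step transition probabilities
  conditionally on the whole past.
-/

open MeasureTheory ProbabilityTheory Filter Topology

namespace Pool.Agent.Results.MP_758450_pr.RightTransient

open R692.ERW

/-- `ρ(x) = E[U(x) - μ x]` -/
noncomputable def rhoOf (p : ℕ → unitInterval) (μ : ℝ) (x : ℕ) : ℝ :=
  ∫ b, ((U x b : ℝ) - μ * x) ∂(coins p)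

/-- `ν(x) = E[(U(x) - μ x)^2] / x` -/
noncomputable def nuOf (p : ℕ → unitInterval) (μ : ℝ) (x : ℕ) : ℝ :=
  (∫ b, ((U x b : ℝ) - μ * x) ^ 2 ∂(coins p)) / x

/-- `θ(x) = 2 ρ(x) / ν(x)` -/
noncomputable def thetaOf (p : ℕ → unitInterval) (μ : ℝ) (x : ℕ) : ℝ :=
  2 * rhoOf p μ x / nuOf p μ x

/-- There is a uniformly elliptic identically piled cookie environment `p` with `μ = θ = 1` such
that the excited random walk in it exists and every version of it is transient to the right. -/
theorem result :
    ∃ p : ℕ → unitInterval,
      -- `p` is uniformly elliptic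
      (∃ ε : ℝ, 0 < ε ∧ ∀ i, ε ≤ (p i : ℝ) ∧ (p i : ℝ) ≤ 1 - ε) ∧
      -- almost surely the `x`-th failure occurs for every `x`
      (∀ᵐ b ∂(coins p), ∀ x, ∃ N, x ≤ fails b N) ∧
      -- `U x` has a finite second moment
      (∀ x, Integrable (fun b => (U x b : ℝ)) (coins p)) ∧
      (∀ x, Integrable (fun b => ((U x b : ℝ) - 1 * x) ^ 2) (coins p)) ∧
      -- `μ` exists and equals `1`
      Tendsto (fun x : ℕ => (∫ b, (U x b : ℝ) ∂(coins p)) / x) atTop (𝓝 1) ∧
      -- `θ` exists and equals `1`
      Tendsto (thetaOf p 1) atTop (𝓝 1) ∧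
      -- the excited random walk exists
      (∃ (Ω : Type) (_ : MeasurableSpace Ω) (P : Measure Ω) (_ : IsProbabilityMeasure P)
        (X : ℕ → Ω → ℤ), IsERW p P X) ∧
      -- and it is transient to the right
      (∀ (Ω : Type) (_ : MeasurableSpace Ω) (P : Measure Ω) (_ : IsProbabilityMeasure P)
        (X : ℕ → Ω → ℤ), IsERW p P X → ∀ᵐ ω ∂P, Tendsto (fun n => X n ω) atTop atTop) := by
  refine ⟨env, ⟨1/8, by norm_num, env_elliptic⟩, ae_fails env (3/2) sum_abs_env, integrable_U,
    fun x => by simpa using integrable_sq x, tendsto_mu, ?_, ⟨_, _, MM, inferInstance, _,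
    stack_isERW⟩, ?_⟩
  · have h := tendsto_theta
    unfold thetaOf rhoOf nuOf
    simpa [rho, sec] using h
  · intro Ω _ P _ X hX
    exact erw_transient P X hX

end Pool.Agent.Results.MP_758450_pr.RightTransient
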